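import Mathlib

namespace Pool.Agent.H.MP_d958de_lc

open Filter Topology MvPolynomial Finset

/-- one unit-cost instruction; the naturals are register addresses -/
inductive Ins
  | const (c : ℂ)
  | add (i j : ℕ)
  | sub (i j : ℕ)
  | mul (i j : ℕ)
  | div (i j : ℕ)
  | conj (i : ℕ)
  | test (p : (ℕ → ℂ) → Prop)
  | halt (o : ℕ → ℕ)

/-- the value written by an instruction -/
noncomputable def Ins.val : Ins → (ℕ → ℂ) → ℂ
  | .const c, _ => c
  | .add i j, x => x i + x j
  | .sub i j, x => x i - x j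
  | .mul i j, x => x i * x j
  | .div i j, x => x i / x j
  | .conj i, x => star (x i)
  | _, _ => 0

/-- the outcome passed to the control -/
def Ins.br : Ins → (ℕ → ℂ) → Prop
  | .test p, x => p x
  | _, _ => True

structure Mach (Q : Type) where
  q0 : Q
  ins : Q → Ins
  next : Q → Prop → Q

def init {m : ℕ} (v : Fin m → ℂ) (k : ℕ) : ℂ := if h : k < m then v ⟨k, h⟩ else 0

/-- control state and registers after `n` steps; step `n` writes register `m + n` -/
noncomputable def Mach.cfg {Q} (M : Mach Q) {m : ℕ} (v : Fin m → ℂ) : ℕ → Q × (ℕ → ℂ)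
  | 0 => (M.q0, init v)
  | n + 1 => (M.next (M.cfg v n).1 ((M.ins (M.cfg v n).1).br (M.cfg v n).2),
      Function.update (M.cfg v n).2 (m + n) ((M.ins (M.cfg v n).1).val (M.cfg v n).2))

/-- after `n` steps the machine halts and the named registers hold `y` -/
def Mach.Out {Q} (M : Mach Q) {m : ℕ} (v : Fin m → ℂ) (n : ℕ) (y : Fin m → ℂ) : Prop :=
  ∃ o, M.ins (M.cfg v n).1 = .halt o ∧ ∀ i : Fin m, (M.cfg v n).2 (o i) = y i

def Ins.zb : Ins → (ℕ → ℂ) → Prop
  | .div _ j, x => x j = 0
  | _, _ => False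

def Ins.sh : Ins → ℕ × ℕ
  | .add i j => (i, j)
  | .sub i j => (i, j)
  | .mul i j => (i, j)
  | .div i j => (i, j)
  | .conj i => (i, i)
  | _ => (0, 0)

noncomputable def Ins.co : Ins → (ℕ → ℂ) → Fin 3 → ℂ
  | .add _ _, _ => ![1, 1, 0]
  | .sub _ _, _ => ![1, -1, 0]
  | .mul i j, x => ![x j, x i, 0]
  | .div i j, x => ![(x j)⁻¹, -x i / x j ^ 2, 0]
  | .conj _, _ => ![0, 0, 1]
  | _, _ => 0

def lin {R : Type} [CommRing R] (m : ℕ) (σ : ℕ → ℕ × ℕ) (a : ℕ → Bool → Fin 3 → R) (j : ℕ) : ℕ → ℕ → R × R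
  | 0 => fun k => if k = j then (1, 1) else (0, 0)
  | n + 1 => Function.update (lin m σ a j n) (m + n)
      (a n true 0 * (lin m σ a j n (σ n).1).1 + a n true 1 * (lin m σ a j n (σ n).2).1 + a n true 2 * (lin m σ a j n (σ n).1).2,
       a n false 0 * (lin m σ a j n (σ n).1).2 + a n false 1 * (lin m σ a j n (σ n).2).2 +
        a n false 2 * (lin m σ a j n (σ n).1).1)

theorem lin_map {R S : Type} [CommRing R] [CommRing S] (e : R →+* S) {m σ a b j T} (h : ∀ n < T, ∀ s t, e (a n s t) = b n s t) :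
    ∀ n ≤ T, ∀ k, e (lin m σ a j n k).1 = (lin m σ b j n k).1 ∧ e (lin m σ a j n k).2 = (lin m σ b j n k).2 := by
  intro n hn
  induction n with
  | zero => intro k; simp only [lin]; split_ifs <;> simp
  | succ n ih =>
    intro k
    have := ih (by omega)
    by_cases c : k = m + n
    · simp [lin, c, h n (by omega), this]
    · simp [lin, c, this]

theorem lin_zero {R : Type} [CommRing R] {m σ} {a : ℕ → Bool → Fin 3 → R} {j} (hj : j < m) :
    ∀ n k, m + n ≤ k → lin m σ a j n k = (0, 0) := by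
  intro n
  induction n with
  | zero => intro k hk; simp only [lin]; rw [if_neg (by omega)]
  | succ n ih => intro k hk; simp only [lin]; rw [Function.update_of_ne (by omega), ih k (by omega)]

theorem lin_min {R : Type} [CommRing R] {m σ} {a : ℕ → Bool → Fin 3 → R} {j n B} (hj : j < m) (h : m + n ≤ B) (k) :
    lin m σ a j n (min k B) = lin m σ a j n k := by
  rcases le_total k B with c | c
  · rw [min_eq_left c]
  · rw [min_eq_right c, lin_zero hj _ _ h, lin_zero hj _ _ (h.trans c)]

theorem lin_clamp {R : Type} [CommRing R] {m σ τ} {a : ℕ → Bool → Fin 3 → R} {j T} (hj : j < m)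
    (h : ∀ n < T, τ n = (min (σ n).1 (m + T), min (σ n).2 (m + T))) : ∀ n ≤ T, lin m τ a j n = lin m σ a j n := by
  intro n hn
  induction n with
  | zero => rfl
  | succ n ih =>
    simp only [lin]
    rw [ih (by omega), h n (by omega), lin_min hj (by omega), lin_min hj (by omega)]

/-- the straight-line program along the path of `v0` -/
noncomputable def sl {Q} (M : Mach Q) {m : ℕ} (v0 v : Fin m → ℂ) : ℕ → ℕ → ℂ
  | 0 => init v
  | n + 1 => open Classical in Function.update (sl M v0 v n) (m + n)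
      (if (M.ins (M.cfg v0 n).1).zb (M.cfg v0 n).2 then 0 else (M.ins (M.cfg v0 n).1).val (sl M v0 v n))

theorem val_zb {I : Ins} {x} (h : I.zb x) : I.val x = 0 := by
  cases I <;> simp_all [Ins.zb, Ins.val]

theorem sl_eq {Q} (M : Mach Q) {m : ℕ} {v0 v : Fin m → ℂ} {T}
    (h : ∀ n < T, ((M.ins (M.cfg v n).1).br (M.cfg v n).2 = (M.ins (M.cfg v0 n).1).br (M.cfg v0 n).2) ∧
      ((M.ins (M.cfg v n).1).zb (M.cfg v n).2 = (M.ins (M.cfg v0 n).1).zb (M.cfg v0 n).2)) :
    ∀ n ≤ T, M.cfg v n = ((M.cfg v0 n).1, sl M v0 v n) := by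
  intro n hn
  induction n with
  | zero => rfl
  | succ n ih =>
    obtain ⟨h1, h2⟩ := h n (by omega)
    have e := ih (by omega)
    simp only [Mach.cfg, sl]
    rw [h1]
    rw [e] at h2 ⊢
    simp only at h2 ⊢
    split_ifs with c
    · rw [val_zb (h2 ▸ c)]
    · rfl

theorem sl_self {Q} (M : Mach Q) {m : ℕ} (v0 : Fin m → ℂ) (n) : sl M v0 v0 n = (M.cfg v0 n).2 :=
  (congrArg Prod.snd (sl_eq M (fun _ _ => ⟨rfl, rfl⟩) n le_rfl)).symm

theorem sl_cont {Q} (M : Mach Q) {m : ℕ} (v0 : Fin m → ℂ) (n) :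
    ∀ k, ∀ᶠ v in 𝓝 v0, ContinuousAt (fun w => sl M v0 w n k) v := by
  induction n with
  | zero => intro k; refine Eventually.of_forall fun v => ?_; simp only [sl, init]; split_ifs; exacts [(continuous_apply _).continuousAt, continuousAt_const]
  | succ n ih =>
    intro k
    by_cases c : k = m + n
    swap
    · simpa [sl, c] using ih k
    simp only [sl, c, Function.update_self]
    split_ifs with z
    · exact Eventually.of_forall fun _ => continuousAt_const
    generalize M.ins (M.cfg v0 n).1 = I at z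
    cases I with
    | add i j => filter_upwards [ih i, ih j] with v a b using a.add b
    | sub i j => filter_upwards [ih i, ih j] with v a b using a.sub b
    | mul i j => filter_upwards [ih i, ih j] with v a b using a.mul b
    | div i j =>
      filter_upwards [ih i, ih j, (ih j).self_of_nhds.eventually_ne (y := 0) (by rw [sl_self]; exact z)] with v a b c
        using a.div b c
    | conj i => filter_upwards [ih i] with v a using a.star
    | _ => exact Eventually.of_forall fun _ => continuousAt_const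

noncomputable def par {Q} (M : Mach Q) {m : ℕ} (v0 : Fin m → ℂ) (n : ℕ) (s : Bool) (t : Fin 3) : ℂ :=
  if s then (M.ins (M.cfg v0 n).1).co (M.cfg v0 n).2 t else star ((M.ins (M.cfg v0 n).1).co (M.cfg v0 n).2 t)

theorem sl_der {Q} (M : Mach Q) {m : ℕ} (v0 : Fin m → ℂ) (j : Fin m) (n) :
    ∀ k, HasDerivAt (fun t : ℝ => sl M v0 (v0 + Pi.single j (t : ℂ)) n k)
      (lin m (fun n => (M.ins (M.cfg v0 n).1).sh) (par M v0) j n k).1 0 ∧
      (lin m (fun n => (M.ins (M.cfg v0 n).1).sh) (par M v0) j n k).2 =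
        star (lin m (fun n => (M.ins (M.cfg v0 n).1).sh) (par M v0) j n k).1 := by
  induction n with
  | zero =>
    intro k
    simp only [sl, init, lin]
    by_cases c : k = j
    · simpa [c] using (Complex.ofRealCLM.hasDerivAt (x := 0)).const_add (v0 j)
    · split_ifs with h
      · simpa [c, Pi.single_apply, Fin.ext_iff] using hasDerivAt_const (0 : ℝ) (v0 ⟨k, h⟩)
      · simpa using hasDerivAt_const (0 : ℝ) (0 : ℂ)
  | succ n ih =>
    intro k
    by_cases c : k = m + n
    swap
    · simpa [sl, lin, c] using ih k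
    simp only [sl, lin, c, Function.update_self]
    generalize lin m (fun n => (M.ins (M.cfg v0 n).1).sh) (par M v0) j n = L at ih ⊢
    simp only [par, if_true, Bool.false_eq_true, if_false]
    refine ⟨?_, by simp [(ih _).2]⟩
    have s0 : ∀ k, sl M v0 (v0 + Pi.single j ((0 : ℝ) : ℂ)) n k = (M.cfg v0 n).2 k := fun k => by simp [sl_self]
    generalize M.ins (M.cfg v0 n).1 = I
    split_ifs with z
    · cases I with
      | div i j => simpa [Ins.co, show (M.cfg v0 n).2 j = 0 from z] using hasDerivAt_const (0 : ℝ) (0 : ℂ)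
      | _ => exact z.elim
    cases I with
    | add i j => simpa [Ins.co, Ins.sh, Ins.val] using (ih i).1.fun_add (ih j).1
    | sub i j => simpa [Ins.co, Ins.sh, Ins.val, sub_eq_add_neg] using (ih i).1.fun_sub (ih j).1
    | mul i j =>
      refine ((ih i).1.fun_mul (ih j).1).congr_deriv ?_
      simp [Ins.co, Ins.sh, sl_self]; ring
    | div i j =>
      refine ((ih i).1.fun_div (ih j).1 (by rw [s0]; exact z)).congr_deriv ?_
      have : (M.cfg v0 n).2 j ≠ 0 := z
      simp only [Ins.co, Ins.sh, s0, Matrix.cons_val_zero, Matrix.cons_val_one, Matrix.cons_val]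
      field_simp
      ring
    | conj i =>
      refine ((ih i).1.star).congr_deriv ?_
      simp [Ins.co, Ins.sh, (ih i).2]
    | const c => simpa [Ins.co, Ins.val] using hasDerivAt_const (0 : ℝ) c
    | _ => simpa [Ins.co, Ins.val] using hasDerivAt_const (0 : ℝ) (0 : ℂ)

/-- one polynomial vanishes on all scaled matrices computed by short linear circuits -/
theorem exists_poly (m T : ℕ) (h : 6 * T + 1 < m * m) : ∃ P : MvPolynomial (Fin m × Fin m) ℂ, P ≠ 0 ∧
    ∀ (σ : ℕ → ℕ × ℕ) (a : ℕ → Bool → Fin 3 → ℂ) (o : ℕ → ℕ) (c : ℂ), ∀ n ≤ T,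
      eval (fun p => c * (lin m σ a p.2 n (o p.1)).1) P = 0 := by
  let f : (Fin T → Fin (m + T + 1) × Fin (m + T + 1)) × (Fin m → Fin (m + T + 1)) × Fin (T + 1) → Fin m × Fin m →
      MvPolynomial (Option (Fin T × Bool × Fin 3)) ℂ := fun s p => X none *
    (lin m (fun n => if h : n < T then ((s.1 ⟨n, h⟩).1, (s.1 ⟨n, h⟩).2) else (0, 0))
      (fun n b t => if h : n < T then X (some (⟨n, h⟩, b, t)) else 0) p.2 s.2.2 (s.2.1 p.1)).1
  have : ∀ s, ∃ P : MvPolynomial (Fin m × Fin m) ℂ, P ≠ 0 ∧ aeval (f s) P = 0 := fun s => by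
    by_contra! c
    have := (algebraicIndependent_iff.2 fun P hP => by_contra fun q => c P q hP).lift_cardinalMk_le_trdeg
    rw [MvPolynomial.trdeg_of_isDomain] at this
    simp at this
    norm_cast at this
    omega
  choose P P0 hP using this
  refine ⟨∏ s, P s, prod_ne_zero_iff.2 fun s _ => P0 s, fun σ a o c n hn => ?_⟩
  rw [map_prod]
  refine prod_eq_zero (mem_univ (fun k => (⟨min (σ k).1 (m + T), by omega⟩, ⟨min (σ k).2 (m + T), by omega⟩),
    fun i => ⟨min (o i) (m + T), by omega⟩, ⟨n, by omega⟩)) ?_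
  have := congrArg (aeval fun q : Option (Fin T × Bool × Fin 3) => q.elim c fun r => a r.1 r.2.1 r.2.2) (hP
    (fun k => (⟨min (σ k).1 (m + T), by omega⟩, ⟨min (σ k).2 (m + T), by omega⟩),
    fun i => ⟨min (o i) (m + T), by omega⟩, ⟨n, by omega⟩))
  rw [← AlgHom.comp_apply, comp_aeval, map_zero] at this
  rw [← this, ← aeval_eq_eval]
  refine congrArg (fun g => aeval g _) (funext fun p => ?_)
  simp only [f, map_mul, aeval_X, Option.elim]
  congr 1
  have := (lin_map (aeval (R := ℂ) fun q : Option (Fin T × Bool × Fin 3) => q.elim c fun r => a r.1 r.2.1 r.2.2).toRingHom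
    (m := m) (σ := fun k => if _ : k < T then (min (σ k).1 (m + T), min (σ k).2 (m + T)) else (0, 0))
    (a := fun n b t => if h : n < T then X (some (⟨n, h⟩, b, t)) else 0) (b := a) (j := p.2) (T := T)
    (fun n hn s t => by simp [hn]) n hn (min (o p.1) (m + T))).1
  rw [lin_clamp p.2.2 (σ := σ) (a := a) (fun n hn => by simp [hn]) n hn, lin_min (a := a) p.2.2 (by omega)] at this
  exact this.symm

theorem kron {m : ℕ} {P : MvPolynomial (Fin m × Fin m) ℂ} (hP : P ≠ 0) : ∃ B, 2 ≤ B ∧
    (aeval (fun p => X p.1 ^ B ^ p.2.1) P : MvPolynomial (Fin m) ℂ) ≠ 0 := by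
  obtain ⟨s0, hs⟩ := support_nonempty.2 hP
  let B := P.totalDegree + 2
  let φ : (Fin m × Fin m →₀ ℕ) → (Fin m →₀ ℕ) := fun s => Finsupp.equivFunOnFinite.symm fun i => ∑ j : Fin m, s (i, j) * B ^ j.1
  have b : ∀ s ∈ P.support, ∀ p, s p < B := fun s hs p =>
    ((monomial_le_degreeOf p hs).trans (degreeOf_le_totalDegree P p)).trans_lt (by omega)
  have inj : ∀ s ∈ P.support, φ s = φ s0 → s = s0 := fun s h e => by
    ext ⟨i, j⟩
    have : finFunctionFinEquiv (fun j => (⟨s (i, j), b s h _⟩ : Fin B)) = finFunctionFinEquiv fun j => ⟨s0 (i, j), b s0 hs _⟩ :=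
      Fin.ext (by simpa [φ] using DFunLike.congr_fun e i)
    exact congrArg Fin.val (congrFun (finFunctionFinEquiv.injective this) j)
  have mo : ∀ s a, (aeval (fun p => X p.1 ^ B ^ p.2.1) (monomial s a : MvPolynomial (Fin m × Fin m) ℂ) :
      MvPolynomial (Fin m) ℂ) = monomial (φ s) a := fun s a => by
    rw [aeval_monomial, monomial_eq, Finsupp.prod_fintype _ _ (by simp), Finsupp.prod_fintype _ _ (by simp),
      Fintype.prod_prod_type]
    simp [φ, ← pow_mul, prod_pow_eq_pow_sum, mul_comm]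
  refine ⟨B, by omega, fun e => mem_support_iff.1 hs ?_⟩
  have := congrArg (coeff (φ s0)) e
  rw [P.as_sum, map_sum, coeff_sum, sum_eq_single s0 (fun s h n => by
    rw [mo, coeff_monomial, if_neg fun q => n (inj s h q)]) (fun h => (h hs).elim), mo] at this
  simpa using this

/-- a generic input: every machine that is fast on it computes its matrix by a short linear circuit -/
theorem generic {ι Q : Type} [Fintype ι] {m : ℕ} (T : ℕ) (M : ι → Mach Q) (A : ι → Fin m → Fin m → ℂ)
    (t : ι → (Fin m → ℂ) → ℕ) (h : ∀ r v, (M r).Out v (t r v) fun i => ∑ j, A r i j * v j) :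
    ∃ v, ∀ r, t r v ≤ T → ∃ σ a, ∃ o : ℕ → ℕ, ∀ i j : Fin m, (lin m σ a j (t r v) (o i.1)).1 = A r i j := by
  let sg : (Fin m → ℂ) → ι → (Fin T → Prop × Prop) × Fin (T + 2) := fun v r =>
    (fun n => (((M r).ins ((M r).cfg v n).1).br ((M r).cfg v n).2, ((M r).ins ((M r).cfg v n).1).zb ((M r).cfg v n).2),
      ⟨min (t r v) (T + 1), by omega⟩)
  obtain ⟨s, u, hu⟩ := nonempty_interior_of_iUnion_of_closed (f := fun s => closure {v | sg v = s})
    (fun _ => isClosed_closure) (Set.eq_univ_of_forall fun v => Set.mem_iUnion.2 ⟨sg v, subset_closure rfl⟩)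
  obtain ⟨v0, h1, rfl⟩ := mem_closure_iff.1 (interior_subset hu) _ isOpen_interior hu
  refine ⟨v0, fun r hr => ?_⟩
  obtain ⟨o, ho, -⟩ := h r v0
  refine ⟨fun n => ((M r).ins ((M r).cfg v0 n).1).sh, par (M r) v0, o, fun i j => ?_⟩
  have e : ∀ᶠ v in 𝓝 v0, sl (M r) v0 v (t r v0) (o i) = ∑ j, A r i j * v j := by
    filter_upwards [sl_cont (M r) v0 (t r v0) (o i), mem_interior_iff_mem_nhds.1 h1] with v c hv
    refine tendsto_nhds_unique_of_frequently_eq c
      ((continuous_finsetSum _ fun j _ => continuous_const.mul (continuous_apply j)).tendsto v)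
      ((mem_closure_iff_frequently.1 hv).mono fun w hw => ?_)
    have q := congrFun hw r
    have q1 : t r w = t r v0 := by have := congrArg (fun z => z.2.1) q; simp only [sg] at this; omega
    have q2 := sl_eq (M r) (v0 := v0) (v := w) (T := T) (fun n hn => Prod.ext_iff.1 (congrFun (congrArg Prod.fst q) ⟨n, hn⟩))
      _ hr
    obtain ⟨o', h1, h2⟩ := h r w
    rw [q1, q2] at h1 h2
    rw [ho] at h1
    cases h1
    exact h2 i
  have k : Tendsto (fun t : ℝ => v0 + Pi.single j (t : ℂ)) (𝓝 0) (𝓝 v0) :=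
    Continuous.tendsto' (continuous_const.add ((continuous_single j).comp Complex.continuous_ofReal)) _ _ (by simp)
  refine ((sl_der (M r) v0 j (t r v0) (o i)).1.congr_of_eventuallyEq (k.eventually e |>.mono fun _ h => h.symm)).unique ?_
  simpa [mul_add, sum_add_distrib, Pi.single_apply] using
    ((Complex.ofRealCLM.hasDerivAt (x := 0)).const_mul (A r i j)).const_add (∑ j, A r i j * v0 j)

end Pool.Agent.H.MP_d958de_lc
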